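import Mathlib
import Pool.Agent.H93.PH.Assemble

set_option autoImplicit false

/-!
Full affirmative answer to Q1 of MP_df9226_an, in every dimension, for finitely many compact sets at
once and with maps of the whole space that are close to the identity.

For `d = 2` the convex hull of the two points of `s : Fin 2 → ℝ²` is the closed segment between them,
so a set whose frontier is contained in finitely many such hulls is a polygon in the sense of the
problem.

Idea of the proof.  For finitely many slopes `q` on a fine grid and finitely many points `X i` there
are weights (minimise a discrete Kantorovich functional) for which the proximal map of the polyhedral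
convex function `y ↦ max_q (⟨q, y⟩ + c_q + |q|²/2)` is firmly nonexpansive, close to the identity,
and such that the preimages `y + q` (`q` active at `y`) avoid balls around the points `X i`; all
other points go to finitely many hyperplanes.  An ultrafilter limit produces a firmly nonexpansive
map `F₁` which maps the complement of a given (possibly dense) open set `U` of small volume onto the
whole space.  With `W i` a small thickening of `K i` with null frontier, take for `U` the union of
the sets `W i \ K i` and compose `F₁` with a polyhedral map `F₂` which sends the sets `F₁(∂W i)` to
finitely many hyperplanes.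
-/

namespace Pool.Agent.Results.MP_df9226_an.PolytopeContraction

open MeasureTheory

/-- Finitely many compact sets of `ℝ^d` are mapped by one contraction of `ℝ^d`, moving no point
by more than `ε`, onto sets with boundary in finitely many convex hulls of `d` points and with
volume at least `vol (K i) - ε`. -/
theorem result (d : ℕ) (hd : 0 < d) (m : ℕ) (K : Fin m → Set (EuclideanSpace ℝ (Fin d)))
    (hK : ∀ i, IsCompact (K i)) (ε : ℝ) (hε : 0 < ε) :
    ∃ f : EuclideanSpace ℝ (Fin d) → EuclideanSpace ℝ (Fin d),
      (∀ x y, dist (f x) (f y) ≤ dist x y) ∧
      (∀ x, dist (f x) x ≤ ε) ∧
      ∀ i,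
        (∃ S : Finset (Fin d → EuclideanSpace ℝ (Fin d)),
          frontier (f '' K i) ⊆ ⋃ s ∈ S, convexHull ℝ (Set.range s)) ∧
        (volume (K i)).toReal - ε ≤ (volume (f '' K i)).toReal := by
  obtain ⟨f, hf, hfn, h⟩ := Pool.Agent.H93.PH.main hd K hK ε hε
  refine ⟨f, fun x y => ?_, fun x => ?_, fun i => ⟨(h i).1, ?_⟩⟩
  · have := hf.dist_le_mul x y
    rwa [NNReal.coe_one, one_mul] at this
  · rw [dist_comm, dist_eq_norm]
    exact hfn x
  · have hvol := (h i).2
    have hfin : volume (f '' K i) ≠ ⊤ := ((hK i).image hf.continuous).measure_lt_top.ne
    have h2 := ENNReal.toReal_mono (by finiteness) hvol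
    rw [ENNReal.toReal_add hfin ENNReal.ofReal_ne_top, ENNReal.toReal_ofReal hε.le] at h2
    linarith

end Pool.Agent.Results.MP_df9226_an.PolytopeContraction
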